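import Pool.Agent.Y922.AP.Fin

/-!
# The solutions of `ξ(s) = a` are algebraically independent for all but countably many `a`

Let `ξ(s) = s (s - 1) π^(-s/2) Γ(s/2) ζ(s) / 2`. The positive ordinates of the zeros of zeta are the positive imaginary
parts of the solutions of `ξ(s) = 0`. We prove that, for all but countably many real `a`, the positive imaginary parts of
the solutions of `ξ(s) = a` are algebraically independent over `ℚ`, even over `K(a)` for a given countable field `K`, and
the corresponding statement for the solutions themselves, `a` complex. It follows that the local inverse functions of `ξ`,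
for instance those at simple zeros of zeta, are algebraically independent over `ℂ(a)`: no algebraic relation between zeros
persists when `ξ` is replaced by `ξ - a`.

Proof: `ξ(s) = X((s - 1/2)^2)`, and outside a strip-like set the level curves are described by one function `G` on a
half-plane with `X(G(W)) = exp W`; the branches `G(W + 2πik)` are permuted by the shift `k → k + 1`, and two of them meet
over a critical value of largest modulus, while almost all the others are regular there. A minimal relation is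
incompatible with these two symmetries.
-/

set_option autoImplicit false

open Filter Topology

namespace Pool.Agent.Results.MP_ec260d_nt.AlmostAllLevels

/-- The Riemann xi function: `ξ(s) = (s (s - 1) Λ₀(s) + 1) / 2 = s (s - 1) π^(-s/2) Γ(s/2) ζ(s) / 2`. -/
noncomputable def xi (s : ℂ) : ℂ := (s * (s - 1) * completedRiemannZeta₀ s + 1) / 2

/-- The set of the positive imaginary parts of the solutions of `ξ(s) = a`. -/
def Ordinates (a : ℂ) : Set ℝ := {γ | 0 < γ ∧ ∃ β : ℝ, xi ((β : ℂ) + (γ : ℂ) * Complex.I) = a}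

/-- The subfield `K(a)` of `ℂ`. -/
noncomputable def adj (K : Subfield ℂ) (a : ℂ) : Subfield ℂ := Subfield.closure ((K : Set ℂ) ∪ {a})

theorem xi_zero_iff (s : ℂ) (hs : 0 < s.im) : xi s = 0 ↔ riemannZeta s = 0 := by
  have h0 : s ≠ 0 := by rintro rfl; simp at hs
  have h1 : s ≠ 1 := by rintro rfl; simp at hs
  have h1' : (1 : ℂ) - s ≠ 0 := sub_ne_zero.mpr h1.symm
  have h2 : xi s = s * (s - 1) * completedRiemannZeta s / 2 := by
    rw [xi, completedRiemannZeta_eq]
    field_simp
    ring
  have h3 : Complex.Gammaℝ s ≠ 0 := by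
    intro h
    rw [Complex.Gammaℝ_eq_zero_iff] at h
    obtain ⟨n, hn⟩ := h
    rw [hn] at hs
    simp at hs
  have h4 := riemannZeta_def_of_ne_zero h0
  have h5 : s * (s - 1) ≠ 0 := mul_ne_zero h0 (sub_ne_zero.mpr h1)
  rw [h2, h4, div_eq_zero_iff, div_eq_zero_iff, mul_eq_zero]
  constructor
  · rintro ((h | h) | h)
    · exact absurd h h5
    · exact Or.inl h
    · norm_num at h
  · rintro (h | h)
    · exact Or.inl (Or.inr h)
    · exact absurd h h3

/-- Let `K` be a countable subfield of `ℂ`. There is a countable set `E` such that for every `a` outside `E`: `a` is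
transcendental over `K`, and any solutions `s_1, …, s_n` of `ξ(s) = a` with `s_i ≠ s_j` and `s_i + s_j ≠ 1` for `i ≠ j`
are algebraically independent over `K(a)`; if `a` is real, the set of the positive imaginary parts of all solutions of
`ξ(s) = a` is algebraically independent over `K(a)`. Moreover, if `g_1, …, g_n` are analytic near `a₀`,
`ξ(g_i(a)) = a`, `g_i(a₀) ≠ g_j(a₀)` and `g_i(a₀) + g_j(a₀) ≠ 1` for `i ≠ j`, then for every nonzero polynomial `P` with
complex coefficients `P(a, g_1(a), …, g_n(a)) ≠ 0` for all `a ≠ a₀` near `a₀`. The set `Ordinates 0` is the set of the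
positive ordinates of the zeros of zeta. -/
theorem result :
    (∀ K : Subfield ℂ, Countable K → ∃ E : Set ℂ, E.Countable ∧
      (∀ a : ℂ, a ∉ E → Transcendental K a ∧
        ∀ (n : ℕ) (s : Fin n → ℂ), (∀ i, xi (s i) = a) → (∀ i j, i ≠ j → s i ≠ s j ∧ s i + s j ≠ 1) →
          AlgebraicIndependent (adj K a) s) ∧
      ∀ a : ℝ, (a : ℂ) ∉ E → AlgebraicIndependent (adj K a) (fun γ : Ordinates a => ((γ : ℝ) : ℂ))) ∧
    (∀ (n : ℕ) (P : MvPolynomial (Option (Fin n)) ℂ), P ≠ 0 → ∀ (a₀ : ℂ) (g : Fin n → ℂ → ℂ),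
      (∀ i, AnalyticAt ℂ (g i) a₀) → (∀ i, ∀ᶠ a in 𝓝 a₀, xi (g i a) = a) →
      (∀ i j, i ≠ j → g i a₀ ≠ g j a₀ ∧ g i a₀ + g j a₀ ≠ 1) →
      ∀ᶠ a in 𝓝[≠] a₀, MvPolynomial.eval (fun o : Option (Fin n) => o.elim a fun i => g i a) P ≠ 0) ∧
    Ordinates 0 = {γ : ℝ | 0 < γ ∧ ∃ β : ℝ, riemannZeta ((β : ℂ) + (γ : ℂ) * Complex.I) = 0} := by
  refine ⟨fun K hK => Y922.AP.final K hK, fun n P hP a₀ g h1 h2 h3 => Y922.AP.final_fun n P hP a₀ g h1 h2 h3, ?_⟩
  ext γ
  constructor
  · rintro ⟨h1, β, h2⟩
    exact ⟨h1, β, (xi_zero_iff _ (by simpa using h1)).mp h2⟩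
  · rintro ⟨h1, β, h2⟩
    exact ⟨h1, β, (xi_zero_iff _ (by simpa using h1)).mpr h2⟩

end Pool.Agent.Results.MP_ec260d_nt.AlmostAllLevels
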