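import Pool.Agent.Y743.PR.Main

/-!
# Polynomial relations between consecutive ordinates of the zeta zeros

Assume the Riemann hypothesis and let `0 < γ_1 ≤ γ_2 ≤ …` be the ordinates of the nontrivial zeros,
with multiplicity.  For a polynomial `P` in `k` variables, of degree at most `m`, write `P_m` for its
part of degree `m`.  We prove: if the gradient of `P_m` does not vanish at `(1, …, 1)`, then
`P (γ_n, …, γ_{n + k - 1}) = 0` fails for a proportion at least `ε` of all `n`, where `ε > 0` depends
only on `k`.  This holds uniformly for all polynomials with integer coefficients of modulus at most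
`N ^ θ`, `θ < 1`, if `n ≤ N`, and there is a lower bound for `|P (γ_n, …, γ_{n + k - 1})|`.

Examples: `γ_n γ_{n + 3} = γ_{n + 1} γ_{n + 2}`, `γ_n ^ m + γ_{n + 1} ^ m = 2 γ_{n + 2} ^ m`, or
any relation between monomials `∏ γ_{n + j} ^ a_j = ∏ γ_{n + j} ^ b_j` with `a ≠ b`.

Idea of the proof.  Near the diagonal the polynomial is `x ^ (m - 1)` times a linear form in the
consecutive ordinates plus a constant, up to a smaller error, as the gaps are at most logarithmic.
The linear form is handled by the theorem on linear relations (`Pool.Agent.Y743.LR.ordinates`).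
-/

set_option autoImplicit false

open Filter

namespace Pool.Agent.Results.MP_ec260d_nt.ConsecutivePolynomials

/-- multiplicity of `s` as a zero of the Riemann zeta function (order of vanishing at `s`) -/
noncomputable def zmult (s : ℂ) : ℕ := analyticOrderNatAt riemannZeta s

/-- the number of nontrivial zeros of `ζ` with ordinate in `(0, t]`, with multiplicity -/
noncomputable def NZ (t : ℝ) : ℕ :=
  ∑ᶠ s ∈ {s : ℂ | riemannZeta s = 0 ∧ 0 < s.re ∧ s.re < 1 ∧ 0 < s.im ∧ s.im ≤ t}, zmult s

/-- for `n ≥ 1`: the `n`-th positive ordinate `γ n` of a nontrivial zero of `ζ`, the ordinates being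
listed in nondecreasing order and repeated according to multiplicity -/
noncomputable def γ (n : ℕ) : ℝ := sInf {t : ℝ | n ≤ NZ t}

/-- the partial derivative with respect to the `i`-th variable of the homogeneous part of degree `m`
of `P`, evaluated at `(1, …, 1)` -/
noncomputable def D {R : Type*} [CommSemiring R] {k : ℕ} (m : ℕ) (P : MvPolynomial (Fin k) R)
    (i : Fin k) : R :=
  MvPolynomial.eval (fun _ => 1) (MvPolynomial.pderiv i (MvPolynomial.homogeneousComponent m P))

lemma D_map {k : ℕ} (m : ℕ) (P : MvPolynomial (Fin k) ℤ) (i : Fin k) :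
    D m (MvPolynomial.map (Int.castRingHom ℝ) P) i = ((D m P i : ℤ) : ℝ) := by
  unfold D
  have h1 : MvPolynomial.homogeneousComponent m (MvPolynomial.map (Int.castRingHom ℝ) P) =
      MvPolynomial.map (Int.castRingHom ℝ) (MvPolynomial.homogeneousComponent m P) := by
    ext s
    rw [MvPolynomial.coeff_homogeneousComponent, MvPolynomial.coeff_map, MvPolynomial.coeff_map,
      MvPolynomial.coeff_homogeneousComponent]
    split_ifs
    · rfl
    · simp
  rw [h1, MvPolynomial.pderiv_map, MvPolynomial.eval_map]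
  have h2 := MvPolynomial.eval₂_comp_left (Int.castRingHom ℝ) (RingHom.id ℤ) (fun _ => 1)
    (MvPolynomial.pderiv i (MvPolynomial.homogeneousComponent m P))
  rw [MvPolynomial.eval₂_id] at h2
  have h3 : (fun _ : Fin k => (1 : ℝ)) = (Int.castRingHom ℝ) ∘ fun _ => 1 := by
    funext _
    simp
  have h4 : (Int.castRingHom ℝ).comp (RingHom.id ℤ) = Int.castRingHom ℝ := RingHom.comp_id _
  rw [h4] at h2
  rw [h3, ← h2]
  simp

/-- **Theorem.** On the Riemann hypothesis, for every `k` there is `ε > 0` such that for all `m ≥ 1`,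
`θ < 1` and all large `N`:
(1) if `P` is a real polynomial of degree at most `m` in `k` variables, whose part of degree `m` has
`i`-th partial derivative `D ≠ 0` at `(1, …, 1)`, and whose coefficients have modulus at most
`|D| N ^ θ`, then `|P (γ_n, …, γ_{n + k - 1})| ≥ (ε / m) |D| γ_n ^ (m - 1) / log γ_n` for at least
`ε N` indices `n ≤ N`;
(2) if `P` is an integer polynomial of degree at most `m` in `k` variables, with coefficients of
modulus at most `N ^ θ`, and some partial derivative of its part of degree `m` does not vanish at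
`(1, …, 1)`, then `P (γ_n, …, γ_{n + k - 1}) ≠ 0` for at least `ε N` indices `n ≤ N`. -/
theorem result (RH : RiemannHypothesis) (k : ℕ) :
    ∃ ε : ℝ, 0 < ε ∧ ∀ m : ℕ, 1 ≤ m → ∀ θ : ℝ, θ < 1 → ∀ᶠ N : ℕ in atTop,
      (∀ P : MvPolynomial (Fin k) ℝ, P.totalDegree ≤ m → ∀ i : Fin k, D m P i ≠ 0 →
        (∀ s, |MvPolynomial.coeff s P| ≤ |D m P i| * (N : ℝ) ^ θ) →
        ε * N ≤ ({n : ℕ | 1 ≤ n ∧ n ≤ N ∧
          ε / m * |D m P i| * γ n ^ (m - 1) / Real.log (γ n) ≤
            |MvPolynomial.eval (fun j : Fin k => γ (n + j)) P|}.ncard : ℝ)) ∧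
      (∀ P : MvPolynomial (Fin k) ℤ, P.totalDegree ≤ m → (∃ i : Fin k, D m P i ≠ 0) →
        (∀ s, |((MvPolynomial.coeff s P : ℤ) : ℝ)| ≤ (N : ℝ) ^ θ) →
        ε * N ≤ ({n : ℕ | 1 ≤ n ∧ n ≤ N ∧
          MvPolynomial.aeval (fun j : Fin k => γ (n + j)) P ≠ 0}.ncard : ℝ)) := by
  obtain ⟨ε, hε, h⟩ := Pool.Agent.Y743.PR.poly RH k
  refine ⟨ε, hε, fun m hm θ hθ => ?_⟩
  have hm0 : (0 : ℝ) < m := by exact_mod_cast hm
  filter_upwards [h m hm θ hθ] with N hN
  constructor
  · intro P hP i hi hco
    refine (hN P hP i hi hco).trans ?_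
    refine Nat.cast_le.mpr (Set.ncard_le_ncard (fun n hn => ⟨hn.1, hn.2.1, hn.2.2.2⟩) ?_)
    exact (Set.finite_Icc 1 N).subset fun n hn => ⟨hn.1, hn.2.1⟩
  · intro P hP hi hco
    obtain ⟨i, hi⟩ := hi
    have h1 : D m (MvPolynomial.map (Int.castRingHom ℝ) P) i = ((D m P i : ℤ) : ℝ) := D_map m P i
    have h2 : (1 : ℝ) ≤ |((D m P i : ℤ) : ℝ)| := by
      have : 1 ≤ |D m P i| := Int.one_le_abs hi
      rw [← Int.cast_abs]
      exact_mod_cast this
    have hθN : 0 ≤ (N : ℝ) ^ θ := Real.rpow_nonneg (Nat.cast_nonneg _) _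
    have h3 := hN (MvPolynomial.map (Int.castRingHom ℝ) P)
      ((Finset.sup_mono (MvPolynomial.support_map_subset _ _)).trans hP) i (by
        change D m (MvPolynomial.map (Int.castRingHom ℝ) P) i ≠ 0
        rw [h1]
        exact_mod_cast hi) (fun s => by
        change |MvPolynomial.coeff s (MvPolynomial.map (Int.castRingHom ℝ) P)| ≤
          |D m (MvPolynomial.map (Int.castRingHom ℝ) P) i| * (N : ℝ) ^ θ
        rw [h1, MvPolynomial.coeff_map]
        refine (hco s).trans ?_
        nlinarith)
    refine h3.trans ?_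
    refine Nat.cast_le.mpr (Set.ncard_le_ncard (fun n hn => ⟨hn.1, hn.2.1, ?_⟩) ?_)
    · obtain ⟨_, _, hx3, hlow⟩ := hn
      have hx0 : 0 < SG.ord n := by linarith
      have hlog : 0 < Real.log (SG.ord n) := Real.log_pos (by linarith)
      have hg : 0 < |Pool.Agent.Y743.PR.grad m (MvPolynomial.map (Int.castRingHom ℝ) P) i| := by
        change 0 < |D m (MvPolynomial.map (Int.castRingHom ℝ) P) i|
        rw [h1]
        linarith
      have h4 : 0 < |MvPolynomial.eval (fun j : Fin k => SG.ord (n + j))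
          (MvPolynomial.map (Int.castRingHom ℝ) P)| := lt_of_lt_of_le (by positivity) hlow
      rw [MvPolynomial.eval_map] at h4
      exact abs_pos.mp h4
    · exact (Set.finite_Icc 1 N).subset fun n hn => ⟨hn.1, hn.2.1⟩

end Pool.Agent.Results.MP_ec260d_nt.ConsecutivePolynomials
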