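import Pool.Agent.Y743.CC.Ev
import Pool.Agent.Y130.CC.FdCvMb
import Pool.Agent.Y429.CCLP
import Pool.Agent.Y888.CCCR
import Pool.Agent.Y950.CC.SD
import Pool.Agent.Y37.CC.CCME
import Pool.Agent.Y474.AF.CR2

/-!
# Curved copies of the set of ordinates

Let `0 < γ_1 ≤ γ_2 ≤ …` be the ordinates of the nontrivial zeros of `ζ`, with multiplicity.  There are
absolute constants `κ, T₀ > 0` such that for every `T ≥ T₀` and every function `f` on `[T, 2T]` with
monotone derivative, `|f x - x| ≤ T / 8` and `1 / (κ T log T) ≤ |f' x - 1| ≤ κ`, the relation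
`γ' = f γ` between ordinates fails for at least `κ T log T` of the ordinates `γ` in `(T, 2T]`, even
approximately: for every injective choice of `γ' = γ_{σ n}` there are at least `κ T log T` indices
`n` with `T < γ_n ≤ 2T` and `|γ_{σ n} - f γ_n| ≥ κ / log T`.  No hypothesis is assumed, and `f` may
depend on `T`.  This applies to all functions `f` on a half-line with monotone derivative,
`f' x → 1` and `x log x |f' x - 1| → ∞`, such as `f x = x + c x ^ r` with `c ≠ 0`, `0 < r < 1`, and so
to the branches `y ~ x`, `|y - x| → ∞` of plane algebraic curves.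

Idea of the proof.  Let `h` be a large constant times the mean spacing.  If almost all ordinates in
`(T, 2T]` are matched, then the numbers of ordinates in `(t, t + h]` and in `(f t, f t + h]` agree in
mean up to a small error.  By Selberg's method (with his density theorem) the numbers differ from
their means by prime sums `P(t)` and `P(f t)` up to `O(1)` in mean square.  The correlation of `P(t)`
and `P(f t)` is small: for `p = q` by the first derivative test, as the phase `log p (t - f t)`
varies by much more than one; for `p ≠ q` the derivative `log p - f' t log q` of the phase is small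
only near the lattice points `(q, p)` next to a curve `y = x ^ s`, and these are rare, uniformly in `s`,
because three of them in a short arc would form a triangle of too small an area.  So the mean
square of the difference is a constant times `log (h log T)`, which is large; a fourth moment bound
turns this into a lower bound for the first moment.
-/

set_option autoImplicit false

open Filter Topology

namespace Pool.Agent.Results.MP_ec260d_nt.CurvedCopies

/-- multiplicity of `s` as a zero of the Riemann zeta function (order of vanishing at `s`) -/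
noncomputable def zmult (s : ℂ) : ℕ := analyticOrderNatAt riemannZeta s

/-- the number of nontrivial zeros of `ζ` with ordinate in `(0, t]`, with multiplicity -/
noncomputable def NZ (t : ℝ) : ℕ :=
  ∑ᶠ s ∈ {s : ℂ | riemannZeta s = 0 ∧ 0 < s.re ∧ s.re < 1 ∧ 0 < s.im ∧ s.im ≤ t}, zmult s

/-- for `n ≥ 1`: the `n`-th positive ordinate `γ n` of a nontrivial zero of `ζ`, the ordinates being
listed in nondecreasing order and repeated according to multiplicity -/
noncomputable def γ (n : ℕ) : ℝ := sInf {t : ℝ | n ≤ NZ t}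

/-- the set of the positive ordinates of the nontrivial zeros of `ζ` -/
def Om : Set ℝ := {x | 0 < x ∧ ∃ s : ℂ, riemannZeta s = 0 ∧ 0 < s.re ∧ s.re < 1 ∧ s.im = x}

/-- **Theorem.** There are `κ > 0` and `T₀` such that:

* for all `T ≥ T₀` and all differentiable `f` with derivative `f'` on `[T, 2T]`, where `f'` is
  monotone or antitone, `|f x - x| ≤ T / 8`, `|f' x - 1| ≤ κ` and `1 ≤ κ T log T |f' x - 1|`: for every
  `σ` which is injective on the indices `n` with `T < γ n ≤ 2T` there are at least `κ T log T` such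
  indices with `|γ (σ n) - f (γ n)| ≥ κ / log T`; and the number of the ordinates `x` in `(T, 2T]`
  for which `f x` is an ordinate is at most `NZ (2T) - NZ T - κ T log T`;
* the last assertion holds for all large `T` whenever `f` is a differentiable function on a half-line
  with monotone or antitone derivative `f'`, `f' x → 1` and `x log x |f' x - 1| → ∞`. -/
theorem result : ∃ κ T₀ : ℝ, 0 < κ ∧
    (∀ T : ℝ, T₀ ≤ T → ∀ f f' : ℝ → ℝ,
      (∀ x ∈ Set.Icc T (2 * T), HasDerivAt f (f' x) x) →
      (MonotoneOn f' (Set.Icc T (2 * T)) ∨ AntitoneOn f' (Set.Icc T (2 * T))) →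
      (∀ x ∈ Set.Icc T (2 * T), |f x - x| ≤ T / 8 ∧ |f' x - 1| ≤ κ ∧
        1 ≤ κ * (T * Real.log T) * |f' x - 1|) →
      (∀ σ : ℕ → ℕ, Set.InjOn σ {n | T < γ n ∧ γ n ≤ 2 * T} →
        κ * (T * Real.log T) ≤ ({n : ℕ | (T < γ n ∧ γ n ≤ 2 * T) ∧
          κ / Real.log T ≤ |γ (σ n) - f (γ n)|}.ncard : ℝ)) ∧
      ({x : ℝ | x ∈ Om ∧ T < x ∧ x ≤ 2 * T ∧ f x ∈ Om}.ncard : ℝ) ≤
        (NZ (2 * T) : ℝ) - NZ T - κ * (T * Real.log T)) ∧
    (∀ (f f' : ℝ → ℝ) (x₀ : ℝ), (∀ x, x₀ ≤ x → HasDerivAt f (f' x) x) →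
      (MonotoneOn f' (Set.Ici x₀) ∨ AntitoneOn f' (Set.Ici x₀)) →
      Tendsto f' atTop (𝓝 1) → Tendsto (fun x => x * Real.log x * |f' x - 1|) atTop atTop →
      ∀ᶠ T : ℝ in atTop, ({x : ℝ | x ∈ Om ∧ T < x ∧ x ≤ 2 * T ∧ f x ∈ Om}.ncard : ℝ) ≤
        (NZ (2 * T) : ℝ) - NZ T - κ * (T * Real.log T)) := by
  obtain ⟨κ, T0, hκ, hκ1, hT0, h⟩ := Pool.Agent.Y743.CC.curved Pool.Agent.Y474.CR2.cr2
    Pool.Agent.Y130.CC.cv Pool.Agent.Y950.CC.SD.sd
    (Pool.Agent.Y888.CR.cr Pool.Agent.Y130.CC.fd Pool.Agent.Y429.LP.lp)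
    Pool.Agent.Y37.CCME.me Pool.Agent.Y130.CC.mb
  refine ⟨κ, T0, hκ, fun T hT f f' h1 h2 h3 => ⟨fun σ hσ => ?_, ?_⟩, fun f f' x₀ h1 h2 h3 h4 => ?_⟩
  · have h5 := h T hT f f' ⟨h1, h2, h3⟩ σ hσ
    refine h5.trans (le_of_eq ?_)
    have e : {n : ℕ | (T < γ n ∧ γ n ≤ 2 * T) ∧ κ / Real.log T ≤ |γ (σ n) - f (γ n)|} =
        (((Finset.Ioc (NZ T) (NZ (2 * T))).filter
          (fun n => κ / Real.log T ≤ |γ (σ n) - f (γ n)|) : Finset ℕ) : Set ℕ) := by
      ext n
      have h6 := Pool.Agent.Y743.CC.mem_win (x := T) (y := 2 * T) (by linarith) n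
      rw [Finset.coe_filter]
      simp only [Set.mem_ofPred_eq]
      exact ⟨fun h7 => ⟨h6.2 h7.1, h7.2⟩, fun h7 => ⟨h6.1 h7.1, h7.2⟩⟩
    rw [e, Set.ncard_coe_finset]
    rfl
  · exact Pool.Agent.Y743.CC.sets2 hκ hκ1 (hT0.trans hT) ⟨h1, h2, h3⟩ (h T hT f f' ⟨h1, h2, h3⟩)
  · filter_upwards [Pool.Agent.Y743.CC.ev_adm hκ h1 h2 h3 h4, eventually_ge_atTop T0] with T hT hTT
    exact Pool.Agent.Y743.CC.sets2 hκ hκ1 (hT0.trans hTT) hT (h T hTT f f' hT)

end Pool.Agent.Results.MP_ec260d_nt.CurvedCopies
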