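import Pool.Agent.Y743.SD.Sets
import Pool.Agent.Y743.SD.Mc
import Pool.Agent.Y960.SDSQ
import Pool.Agent.Y459.SDTL
import Pool.Agent.Y743.SD.Co
import Pool.Agent.Y888.SDIT
import Pool.Agent.Y37.CC.CCME
import Pool.Agent.Y474.AF.CR2

/-!
# Sums and differences of ordinates of zeta zeros

Assume the Riemann hypothesis and let `0 < γ_1 ≤ γ_2 ≤ …` be the ordinates of the nontrivial zeros,
with multiplicity.  No real number is the difference or the sum of two ordinates in almost all
possible ways, uniformly: for every `M` there is `κ > 0` such that for all large `T`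

* for every real `c` with `1 / (M log T) ≤ |c| ≤ T / 8`, every partial matching of the ordinates
  `γ_n` in `(T, 2T]` with ordinates `γ_{σ n}` such that `|γ_{σ n} - (γ_n + c)| ≤ κ / log T` leaves out
  at least `κ T log T` of them;
* the same holds for partial matchings with `|γ_{σ n} + γ_n - 3T| ≤ κ / log T`.

In particular the equation `γ' - γ = c` is not solvable for `κ T log T` of the `γ` in `(T, 2T]`, and
the number of solutions of `γ + γ' = s` is at most `N(s) - κ s log s`.  Translations by one or a few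
mean spacings are included, so the set of ordinates has no approximate period at any scale
between the mean spacing and its own height.

Idea of the proof.  Let `h` be a large constant times the mean spacing.  If almost all ordinates in
`(T, 2T]` are matched, then the numbers of ordinates in `(t, t + h]` and in its image under the
translation or reflection agree in mean up to a small error.  By Selberg's method these numbers are
given by prime sums, up to `O(1)` in mean square.  The correlation of the two prime sums is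
`∑ a_p² cos (c log p)` (with `c = s` for the reflection), where `a_p² ≍ sin² (h log p / 2) / p`.  This
is bounded: up to `O(1)` it is a combination of the values of `log |ζ|` at `1 + δ + i c` and
`1 + δ + i (c ± h)`, and `ζ' / ζ (1 + δ + i t) = o (log t)` on the Riemann hypothesis.  So the mean
square of the difference is a constant times `log (h log T)`, which is large.  Translations by less
than a large constant times the mean spacing are iterated.
-/

set_option autoImplicit false

open Filter Topology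

namespace Pool.Agent.Results.MP_ec260d_nt.SumsAndDifferences

/-- multiplicity of `s` as a zero of the Riemann zeta function (order of vanishing at `s`) -/
noncomputable def zmult (s : ℂ) : ℕ := analyticOrderNatAt riemannZeta s

/-- the number of nontrivial zeros of `ζ` with ordinate in `(0, t]`, with multiplicity -/
noncomputable def NZ (t : ℝ) : ℕ :=
  ∑ᶠ s ∈ {s : ℂ | riemannZeta s = 0 ∧ 0 < s.re ∧ s.re < 1 ∧ 0 < s.im ∧ s.im ≤ t}, zmult s

/-- for `n ≥ 1`: the `n`-th positive ordinate `γ n` of a nontrivial zero of `ζ`, the ordinates being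
listed in nondecreasing order and repeated according to multiplicity -/
noncomputable def γ (n : ℕ) : ℝ := sInf {t : ℝ | n ≤ NZ t}

/-- the set of the positive ordinates of the nontrivial zeros of `ζ` -/
def Om : Set ℝ := {x | 0 < x ∧ ∃ s : ℂ, riemannZeta s = 0 ∧ 0 < s.re ∧ s.re < 1 ∧ s.im = x}

/-- `σ` matches the ordinates in `(T, 2T]` with indices in `G` with the ordinates
`γ (σ n) = g (γ n) + O (w)` -/
def Matching (T w : ℝ) (g : ℝ → ℝ) (G : Set ℕ) (σ : ℕ → ℕ) : Prop :=
  (∀ n ∈ G, T < γ n ∧ γ n ≤ 2 * T) ∧ Set.InjOn σ G ∧ ∀ n ∈ G, |γ (σ n) - g (γ n)| ≤ w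

/-- **Theorem.** On the Riemann hypothesis, for every `M > 0` there are `κ > 0` and `T₀` such that for
all `T ≥ T₀`:

* for every `c` with `1 / (M log T) ≤ |c| ≤ T / 8` a matching `γ (σ n) = γ n + c + O (κ / log T)` of
  ordinates in `(T, 2T]` has at most `NZ (2T) - NZ T - κ T log T` elements, and there are at most so
  many ordinates `x` in `(T, 2T]` for which `x + c` is an ordinate;
* a matching `γ (σ n) = 3T - γ n + O (κ / log T)` has at most `NZ (2T) - NZ T - κ T log T` elements;
* for `s = 3T` the equation `s = x + x'` has at most `NZ s - κ s log s` solutions in ordinates. -/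
theorem result (RH : RiemannHypothesis) (M : ℝ) (hM : 0 < M) : ∃ κ T₀ : ℝ, 0 < κ ∧
    ∀ T : ℝ, T₀ ≤ T →
      (∀ c : ℝ, 1 ≤ M * (|c| * Real.log T) → |c| ≤ T / 8 →
        (∀ (G : Set ℕ) (σ : ℕ → ℕ), Matching T (κ / Real.log T) (fun x => x + c) G σ →
          (G.ncard : ℝ) ≤ (NZ (2 * T) : ℝ) - NZ T - κ * (T * Real.log T)) ∧
        ({x : ℝ | x ∈ Om ∧ T < x ∧ x ≤ 2 * T ∧ x + c ∈ Om}.ncard : ℝ) ≤
          (NZ (2 * T) : ℝ) - NZ T - κ * (T * Real.log T)) ∧
      (∀ (G : Set ℕ) (σ : ℕ → ℕ), Matching T (κ / Real.log T) (fun x => 3 * T - x) G σ →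
        (G.ncard : ℝ) ≤ (NZ (2 * T) : ℝ) - NZ T - κ * (T * Real.log T)) ∧
      ({x : ℝ | x ∈ Om ∧ 3 * T - x ∈ Om}.ncard : ℝ) ≤
        NZ (3 * T) - κ * (3 * T * Real.log (3 * T)) := by
  classical
  obtain ⟨κ, T1, hκ, hT1, h⟩ := Pool.Agent.Y743.SD.transl Pool.Agent.Y474.CR2.cr2
    (Pool.Agent.Y743.SD.co Pool.Agent.Y960.SDSQ.sq Pool.Agent.Y459.TL.tl)
    Pool.Agent.Y743.SD.mc Pool.Agent.Y37.CCME.me Pool.Agent.Y888.IT.it RH M hM
  refine ⟨κ / 6, T1, by positivity, fun T hT => ?_⟩
  obtain ⟨h1, h2⟩ := h T hT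
  have hT0 : 0 < T := by linarith
  have hL0 : 0 < Real.log T := Real.log_pos (by linarith)
  have hTL : 0 < T * Real.log T := by positivity
  have hw : κ / 6 / Real.log T ≤ κ / Real.log T :=
    div_le_div_of_nonneg_right (by linarith) hL0.le
  have hdec : (NZ (2 * T) : ℝ) - NZ T - κ * (T * Real.log T) ≤
      (NZ (2 * T) : ℝ) - NZ T - κ / 6 * (T * Real.log T) := by
    have : κ / 6 * (T * Real.log T) ≤ κ * (T * Real.log T) :=
      mul_le_mul_of_nonneg_right (by linarith) hTL.le
    linarith
  -- sets and finite sets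
  have key : ∀ (g : ℝ → ℝ),
      (∀ (G : Finset ℕ) (σ : ℕ → ℕ), G ⊆ Pool.Agent.Y743.SD.SS T → Set.InjOn σ G →
        (∀ n ∈ G, |γ (σ n) - g (γ n)| ≤ κ / Real.log T) →
        κ * (T * Real.log T) ≤ ((Pool.Agent.Y743.SD.SS T \ G).card : ℝ)) →
      ∀ (G : Set ℕ) (σ : ℕ → ℕ), Matching T (κ / 6 / Real.log T) g G σ →
        (G.ncard : ℝ) ≤ (NZ (2 * T) : ℝ) - NZ T - κ / 6 * (T * Real.log T) := by
    intro g hg G σ hG
    obtain ⟨g1, g2, g3⟩ := hG
    have hsub : G ⊆ ((Pool.Agent.Y743.SD.SS T : Finset ℕ) : Set ℕ) := fun n hn =>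
      Finset.mem_coe.2 ((Pool.Agent.Y743.SD.mem_SS hT0.le n).2 (g1 n hn))
    have hfin : G.Finite := (Finset.finite_toSet _).subset hsub
    have h3 := hg hfin.toFinset σ (fun n hn => hsub (hfin.mem_toFinset.1 hn))
      (by rw [hfin.coe_toFinset]; exact g2)
      (fun n hn => (g3 n (hfin.mem_toFinset.1 hn)).trans hw)
    have h4 := Pool.Agent.Y743.SD.card_bd hT0.le
      (fun n hn => hsub (hfin.mem_toFinset.1 hn) : hfin.toFinset ⊆ Pool.Agent.Y743.SD.SS T) h3
    rw [Set.ncard_eq_toFinset_card G hfin]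
    exact h4.trans hdec
  have key2 : ∀ (g : ℝ → ℝ), Function.Injective g →
      (∀ (G : Finset ℕ) (σ : ℕ → ℕ), G ⊆ Pool.Agent.Y743.SD.SS T → Set.InjOn σ G →
        (∀ n ∈ G, |γ (σ n) - g (γ n)| ≤ κ / Real.log T) →
        κ * (T * Real.log T) ≤ ((Pool.Agent.Y743.SD.SS T \ G).card : ℝ)) →
      ({x : ℝ | x ∈ Om ∧ T < x ∧ x ≤ 2 * T ∧ g x ∈ Om}.ncard : ℝ) ≤
        (NZ (2 * T) : ℝ) - NZ T - κ * (T * Real.log T) := by
    intro g hgi hg
    obtain ⟨G, σ, k1, k2, k3, k4⟩ := Pool.Agent.Y743.SD.exact_match hT0 g hgi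
    have h3 := hg G σ k1 k2 (fun n hn => by
      have : γ (σ n) = g (γ n) := k3 n hn
      rw [this, sub_self, abs_zero]
      positivity)
    have h4 := Pool.Agent.Y743.SD.card_bd hT0.le k1 h3
    have k5 : ({x : ℝ | x ∈ Om ∧ T < x ∧ x ≤ 2 * T ∧ g x ∈ Om}).ncard = G.card := k4
    rw [k5]
    exact h4
  refine ⟨fun c hc1 hc2 => ⟨key _ (h1 c hc1 hc2), ?_⟩, key _ h2, ?_⟩
  · exact (key2 (fun x => x + c) (add_left_injective c) (h1 c hc1 hc2)).trans hdec
  · have h3 := key2 (fun x => 3 * T - x) sub_right_injective h2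
    have h4 := Pool.Agent.Y743.SD.sum_rep (κ := κ) (by linarith) h3
    refine h4.trans ?_
    have h5 : Real.log (3 * T) ≤ 2 * Real.log T := by
      have : Real.log (3 * T) ≤ Real.log (T * T) := by
        apply Real.log_le_log (by linarith)
        nlinarith
      rw [Real.log_mul hT0.ne' hT0.ne'] at this
      linarith
    have h6 : κ / 6 * (3 * T * Real.log (3 * T)) ≤ κ / 6 * (3 * T * (2 * Real.log T)) := by
      apply mul_le_mul_of_nonneg_left _ (by positivity)
      exact mul_le_mul_of_nonneg_left h5 (by linarith)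
    have h7 : κ / 6 * (3 * T * (2 * Real.log T)) = κ * (T * Real.log T) := by ring
    have h8 : (NZ (3 * T) : ℝ) - κ * (T * Real.log T) ≤
      (NZ (3 * T) : ℝ) - κ / 6 * (3 * T * Real.log (3 * T)) := by linarith
    exact h8

end Pool.Agent.Results.MP_ec260d_nt.SumsAndDifferences
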